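import Mathlib
import Pool.Agent.H2.SL4

namespace Pool.Agent.Results.MP_b91784_pr.Fail

open MeasureTheory Filter Pool.Agent.H2.SL3

theorem result : ∃ (Y : Type) (_ : NormedAddCommGroup Y) (_ : InnerProductSpace ℝ Y),
    CompleteSpace Y ∧ BConvex Y ∧ ∀ δ : ℝ, 0 < δ →
    ∃ (Ω : Type) (_ : MeasurableSpace Ω) (μ : Measure Ω) (_ : IsProbabilityMeasure μ)
      (Ψ : ℕ → Ω → Set Y) (U : Set Y), Seq μ Ψ U ∧
      U ⊆ Metric.closedBall 0 δ ∧ (∀ n ω, Ψ n ω ⊆ Metric.closedBall 0 1) ∧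
      ∀ ω, ∀ᶠ N in atTop, ∃ a ∈ avg Ψ N ω, 1 / 48 ≤ ‖a‖ :=
  ⟨Pool.Agent.H2.SL2.X, inferInstance, inferInstance, inferInstance, bconvex, Pool.Agent.H2.SL4.main⟩

end Pool.Agent.Results.MP_b91784_pr.Fail
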